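import Pool.Agent.W619.Y.Stm5
import Pool.Agent.W460.PG.ONE

/-! Pseudo-effectivity and effectivity descend to the other factor (part PSEFY of project PG). -/

set_option autoImplicit false
set_option linter.overlappingInstances false
set_option linter.unusedSectionVars false

universe u v

open FF IntermediateField Pool.Agent.W619.PQ Pool.Agent.W619.PL Pool.Agent.W619.TW
  Pool.Agent.W603.LV Pool.Agent.W619.Y Pool.Agent.W460.PG.ONE

namespace Pool.Agent.W930.PG

/-- Nonzero sections descend. -/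
theorem key (h1 : S_FIBJ.{u, v}) (h2 : S_DESCJ.{u, v}) (k : Type v) (L : Type u) [Field k]
    [CharZero k] [IsAlgClosed k] [Field L] [Algebra k L] (M F : IntermediateField k L) [IsFF k F]
    (d : ℕ) (hM : Algebra.trdeg k M = d) (hL : Algebra.trdeg k L = (d + 1 : ℕ))
    (hsup : M ⊔ F = ⊤) (S : Finset L) :
    ∃ S' : Finset M, ∀ (m j : ℕ) (ω : (Fin (d + 1) → Derivation k L L) → L),
      IsSec k L (d + 1) (fun _ => False) S m j ω → (∃ D, ω D ≠ 0) →
      ∃ ω' : (Fin d → Derivation k M M) → M,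
        IsSec k M d (fun _ => False) S' m j ω' ∧ ∃ D, ω' D ≠ 0 := by
  classical
  obtain ⟨y, hy⟩ := exists_basis M d hM
  obtain ⟨t, ht⟩ := IsFF.exists_transcendental (k := k) (K := F)
  have hx := basis_cons M F d hL hsup y hy t ht
  choose E hE using fun j => exists_dual (Fin.cons (t : L) (fun i => (y i : L)) : Fin (d + 1) → L)
    hx j
  have hE0t : E 0 (t : L) = 1 := by
    have h := hE 0 0
    rw [Fin.cons_zero, if_pos rfl] at h
    exact h
  have hE0M : ∀ μ : M, E 0 (μ : L) = 0 := by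
    intro μ
    refine der_zero (K := M) (L := L) ((E 0).compAlgebraMap M) y hy (fun i => ?_) μ
    change E 0 (y i : L) = 0
    have h := hE 0 i.succ
    rw [Fin.cons_succ, if_neg (Fin.succ_ne_zero i)] at h
    exact h
  have hEy : ∀ l j : Fin d, E l.succ (y j : L) = if l = j then 1 else 0 := by
    intro l j
    have h := hE l.succ j.succ
    rw [Fin.cons_succ] at h
    rw [h]
    by_cases hlj : l = j
    · rw [if_pos hlj, if_pos (by rw [hlj])]
    · rw [if_neg hlj, if_neg (fun h => hlj (Fin.succ_injective _ h).symm)]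
  have hEF : ∀ l : Fin d, ∀ β : F, E l.succ (β : L) = 0 := by
    intro l β
    obtain ⟨r, -, hr2⟩ := ratio' (K := L) ht β
    have h3 := hr2 (E l.succ)
    change E l.succ (β : L) = (r : L) * E l.succ (t : L) at h3
    have h4 := hE l.succ 0
    rw [Fin.cons_zero, if_neg (Fin.succ_ne_zero l).symm] at h4
    rw [h3, h4, mul_zero]
  obtain ⟨b0, A0, hb0, hW⟩ := h1 k L M F d hM hL hsup y hy t ht E hE0M hE0t hEF hEy S
  obtain ⟨S', hS'⟩ := h2 k L M F d hM hL hsup y hy t ht E hE0M hE0t hEF hEy S b0 hb0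
  refine ⟨S', fun m j ω hsec hne => ?_⟩
  obtain ⟨W, hWfin, hWr, hWmem⟩ := hW m j
  let b := Module.finBasis k W
  have hspan : Submodule.span M ((fun β : F => (β : L)) '' (W : Set F)) ≤
      Submodule.span M (Set.range fun i => ((b i : F) : L)) := by
    rw [Submodule.span_le]
    rintro _ ⟨β, hβ, rfl⟩
    have h3 := b.sum_repr ⟨β, hβ⟩
    have h4 : (β : L) = ∑ i, (algebraMap k M (b.repr ⟨β, hβ⟩ i)) • ((b i : F) : L) := by
      have h5 := congrArg (fun z : W => (((z : F)) : L)) h3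
      change ((((∑ i, b.repr ⟨β, hβ⟩ i • b i : W)) : F) : L) = (β : L) at h5
      rw [← h5, AddSubmonoidClass.coe_finsetSum, AddSubmonoidClass.coe_finsetSum]
      refine Finset.sum_congr rfl fun i _ => ?_
      rw [algebraMap_smul]
      rfl
    change (β : L) ∈ _
    rw [h4]
    exact Submodule.sum_mem _ fun i _ => Submodule.smul_mem _ _ (Submodule.subset_span ⟨i, rfl⟩)
  have hμ : ∃ μ : Fin (Module.finrank k W) → M,
      b0 ^ j * ω E = ∑ i, ((b i : F) : L) * (μ i : L) := by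
    obtain ⟨c, hc⟩ := (Submodule.mem_span_range_iff_exists_fun M).1 (hspan (hWmem ω hsec))
    refine ⟨c, ?_⟩
    rw [← hc]
    refine Finset.sum_congr rfl fun i _ => ?_
    rw [mul_comm]
    rfl
  obtain ⟨μ, hμ⟩ := hμ
  have hbli : LinearIndependent k (fun i => (b i : F)) :=
    b.linearIndependent.map' W.subtype (Submodule.ker_subtype W)
  have hωE : ω E ≠ 0 := by
    intro h0
    obtain ⟨D, hD⟩ := hne
    apply hD
    rw [eval _ hx E (fun i j => hE j i) hsec.1 D, h0, mul_zero]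
  have hex : ∃ i, μ i ≠ 0 := by
    by_contra hcon
    push Not at hcon
    have h3 : b0 ^ j * ω E = 0 := by
      rw [hμ]
      refine Finset.sum_eq_zero fun i _ => ?_
      rw [hcon i]
      exact mul_zero _
    exact (mul_ne_zero (pow_ne_zero j hb0) hωE) h3
  obtain ⟨i, hi⟩ := hex
  refine ⟨_, hS' m j ω hsec _ (fun i => (b i : F)) μ hbli hμ i, ?_⟩
  choose E' hE' using fun j => exists_dual y hy j
  refine ⟨E', ?_⟩
  have hdet := det_dual y E' (fun i j => hE' j i)
  change μ i * (Matrix.of fun a b => E' a (y b)).det ^ m ≠ 0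
  rw [hdet, one_pow, mul_one]
  exact hi

theorem hasIndep_one {k : Type*} {K : Type*} [Field k] [Field K] [Algebra k K] {n : ℕ}
    {P : ((Fin n → Derivation k K K) → K) → Prop} :
    HasIndep k K n 1 P ↔ ∃ ω, P ω ∧ ∃ D, ω D ≠ 0 := by
  constructor
  · rintro ⟨ω, hω, hP⟩
    refine ⟨ω 0, hP 0, ?_⟩
    by_contra hcon
    push Not at hcon
    exact hω.ne_zero 0 (funext hcon)
  · rintro ⟨ω, hP, D, hD⟩
    refine ⟨fun _ => ω, ?_, fun _ => hP⟩
    rw [linearIndependent_unique_iff]
    intro h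
    apply hD
    rw [h]
    rfl

theorem main (h1 : S_FIBJ.{u, v}) (h2 : S_DESCJ.{u, v}) : S_PSEFY.{u, v} := by
  intro k L _ _ _ _ _ M F _ d hM hL hsup
  refine ⟨?_, ?_⟩
  · rintro ⟨S, hS⟩
    obtain ⟨S', hS'⟩ := key h1 h2 k L M F d hM hL hsup S
    refine ⟨S', fun N => ?_⟩
    obtain ⟨j, hj, ω, hω, hne⟩ := hS N
    obtain ⟨ω', hω', hne'⟩ := hS' (j * N) j ω hω hne
    exact ⟨j, hj, ω', hω', hne'⟩
  · intro hnum S
    obtain ⟨S', hS'⟩ := key h1 h2 k L M F d hM hL hsup S
    obtain ⟨m0, hm0⟩ := hnum S'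
    refine ⟨m0, fun m hm hind => hm0 m hm ?_⟩
    obtain ⟨ω, hω, hne⟩ := hasIndep_one.1 hind
    exact hasIndep_one.2 (hS' m 1 ω hω hne)

end Pool.Agent.W930.PG
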